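import Pool.Agent.Helper30.EL.St

/-!
# EL module B30: the finite check modulo 30
-/

set_option autoImplicit false

noncomputable section

namespace Pool.Agent.Helper71.EL

open Pool.Agent.Helper30.EL
open Finset Filter Topology ArithmeticFunction

private theorem B30_check : ∀ N : Fin 30, ∀ C : Fin 30, Nat.gcd C.1 (Nat.gcd (2 * N.1) 30) = 1 →
    ∃ b : Fin 30, Nat.gcd b.1 30 = 1 ∧ Nat.gcd ((2 * N.1 + C.1 * (b.1 * b.1 + b.1 + 1)) % 30) 30 = 1 := by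
  decide +kernel

theorem hB30 : StB30 := by
  intro n c h
  have hg : Nat.gcd (c % 30) (Nat.gcd (2 * (n % 30)) 30) = 1 := by
    have e1 : Nat.gcd (2 * (n % 30)) 30 = Nat.gcd (2 * n) 30 := by
      have : (2 * (n % 30)) ≡ 2 * n [MOD 30] := (Nat.mod_modEq n 30).mul_left 2
      exact this.gcd_eq
    rw [e1]
    have hd : Nat.gcd (2 * n) 30 ∣ 30 := Nat.gcd_dvd_right _ _
    have hm : c % 30 ≡ c [MOD Nat.gcd (2 * n) 30] := (Nat.mod_modEq c 30).of_dvd hd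
    rw [hm.gcd_eq]
    exact Nat.Coprime.coprime_dvd_right (Nat.gcd_dvd_left _ _) h
  obtain ⟨b, hb1, hb2⟩ := B30_check ⟨n % 30, Nat.mod_lt _ (by norm_num)⟩ ⟨c % 30, Nat.mod_lt _ (by norm_num)⟩ hg
  refine ⟨b.1, b.2, hb1, fun q hq => ?_⟩
  have hqb : q ≡ b.1 [MOD 30] := by
    unfold Nat.ModEq
    rw [hq, Nat.mod_eq_of_lt b.2]
  have hv : vv n c q ≡ 2 * (n % 30) + (c % 30) * (b.1 * b.1 + b.1 + 1) [MOD 30] := by
    unfold vv
    have h1 : 2 * n ≡ 2 * (n % 30) [MOD 30] := ((Nat.mod_modEq n 30).mul_left 2).symm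
    have h2 : c ≡ c % 30 [MOD 30] := (Nat.mod_modEq c 30).symm
    have h3 : q ^ 2 + q + 1 ≡ b.1 * b.1 + b.1 + 1 [MOD 30] := by
      rw [pow_two]
      exact ((hqb.mul hqb).add hqb).add_right 1
    exact h1.add (h2.mul h3)
  have h4 : (2 * (n % 30) + (c % 30) * (b.1 * b.1 + b.1 + 1)) % 30 ≡
      2 * (n % 30) + (c % 30) * (b.1 * b.1 + b.1 + 1) [MOD 30] := Nat.mod_modEq _ _
  show Nat.gcd (vv n c q) 30 = 1
  rw [hv.gcd_eq, ← h4.gcd_eq]
  exact hb2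

end Pool.Agent.Helper71.EL
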